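import Pool.Agent.Helper35.PQF.St

open Filter Topology Matrix Set

namespace Pool.Agent.Helper60.PM

open Pool.Agent.Helper35.PM

/-- **Module CL** of project PQF. -/
theorem cl (hs2 : St_HS2) (ln : St_LN) (cc : St_CC) (cn2 : St_CN2) : St_CL := by
  intro Γ _ ρ hd hcc
  obtain ⟨C₁, hC₁, h1⟩ := cc Γ ρ hd hcc
  obtain ⟨C₂, hC₂, h2⟩ := cn2 Γ ρ hd
  -- representative of a class
  have hrep : ∀ c : ConjClasses Γ, ∃ g : Γ, ConjClasses.mk g = c ∧
      hs (ρ g : Mat) ≤ C₁ * Real.exp (len ρ c) := by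
    intro c
    obtain ⟨k, hk⟩ := h1 (Quotient.out c)
    refine ⟨k * Quotient.out c * k⁻¹, ?_, hk⟩
    have e1 : ConjClasses.mk (Quotient.out c) = c := Quotient.out_eq c
    rw [← e1]
    rw [ConjClasses.mk_eq_mk_iff_isConj]
    rw [e1]
    exact (isConj_iff.2 ⟨k, rfl⟩).symm
  choose g hg1 hg2 using hrep
  have hginj : Function.Injective g := by
    intro c c' h
    rw [← hg1 c, ← hg1 c', h]
  have hmaps : ∀ T : ℝ, ∀ X : ℝ, C₁ * Real.exp T ≤ X →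
      MapsTo g (classes ρ T) {γ : Γ | hs (ρ γ : Mat) ≤ X} := by
    intro T X hX c hc
    have hc' : len ρ c ≤ T := hc
    exact (hg2 c).trans ((mul_le_mul_of_nonneg_left (Real.exp_le_exp.2 hc') hC₁.le).trans hX)
  have hfin : ∀ T : ℝ, (classes ρ T).Finite := by
    intro T
    exact Set.Finite.of_injOn (hmaps T _ le_rfl) hginj.injOn (hd _)
  refine ⟨hfin, C₂ * (max C₁ 1) ^ 2, by positivity, ?_⟩
  intro T hT
  have hX1 : 1 ≤ max C₁ 1 * Real.exp T := by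
    have h3 : (1 : ℝ) ≤ max C₁ 1 := le_max_right _ _
    have h4 : (1 : ℝ) ≤ Real.exp T := Real.one_le_exp hT
    nlinarith
  have hX2 : C₁ * Real.exp T ≤ max C₁ 1 * Real.exp T :=
    mul_le_mul_of_nonneg_right (le_max_left _ _) (Real.exp_pos _).le
  have h5 : num ρ T ≤ ({γ : Γ | hs (ρ γ : Mat) ≤ max C₁ 1 * Real.exp T}).ncard :=
    Set.ncard_le_ncard_of_injOn g (hmaps T _ hX2) hginj.injOn (hd _)
  have h6 := h2 (max C₁ 1 * Real.exp T) hX1
  have h7 : (num ρ T : ℝ) ≤ (({γ : Γ | hs (ρ γ : Mat) ≤ max C₁ 1 * Real.exp T}).ncard : ℝ) := by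
    exact_mod_cast h5
  calc (num ρ T : ℝ) ≤ _ := h7
    _ ≤ C₂ * (max C₁ 1 * Real.exp T) ^ 2 := h6
    _ = C₂ * (max C₁ 1) ^ 2 * Real.exp (2 * T) := by
      rw [mul_pow, ← Real.exp_nat_mul]; push_cast; ring

end Pool.Agent.Helper60.PM
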