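import Pool.Agent.Helper62.PM.St

/-!
# Project PM (MP_ae3a4d_gt), module L: rotations are transitive on orthonormal pairs
-/

set_option autoImplicit false

open MeasureTheory Metric Set Filter Topology
open scoped RealInnerProductSpace ContDiff

namespace Pool.Agent.Helper60.PM

open Pool.Agent.Helper62.PM
open Pool.Agent.Helper62.Mink

private theorem exists_orth {n : ℕ} (hn : 3 ≤ n) (a b : E n) :
    ∃ c : E n, c ≠ 0 ∧ (inner ℝ c a : ℝ) = 0 ∧ (inner ℝ c b : ℝ) = 0 := by
  classical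
  have hdim : Module.finrank ℝ (E n) = n := by simp
  have hlt : Module.finrank ℝ (Submodule.span ℝ ({a, b} : Set (E n)) : Submodule ℝ (E n)) <
      Module.finrank ℝ (E n) := by
    have h1 := finrank_span_finset_le_card (R := ℝ) ({a, b} : Finset (E n))
    have h2 : ({a, b} : Finset (E n)).card ≤ 2 := Finset.card_le_two
    have h3 : ((({a, b} : Finset (E n)) : Set (E n))) = ({a, b} : Set (E n)) := by
      simp
    rw [h3] at h1
    unfold Set.finrank at h1
    omega
  have hne : (Submodule.span ℝ ({a, b} : Set (E n)) : Submodule ℝ (E n))ᗮ ≠ ⊥ := by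
    intro hbot
    rw [Submodule.orthogonal_eq_bot_iff] at hbot
    rw [hbot, finrank_top] at hlt
    exact lt_irrefl _ hlt
  obtain ⟨c, hc, hc0⟩ := Submodule.exists_mem_ne_zero_of_ne_bot hne
  rw [Submodule.mem_orthogonal] at hc
  refine ⟨c, hc0, ?_, ?_⟩
  · rw [real_inner_comm]
    exact hc a (Submodule.subset_span (by simp))
  · rw [real_inner_comm]
    exact hc b (Submodule.subset_span (by simp))

private theorem det_refl {n : ℕ} {v : E n} (hv : v ≠ 0) :
    LinearMap.det ((((ℝ ∙ v)ᗮ).reflection).toLinearEquiv.toLinearMap : E n →ₗ[ℝ] E n) = -1 := by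
  have h1 := Submodule.det_reflection (𝕜 := ℝ) ((ℝ ∙ v)ᗮ)
  rw [Submodule.orthogonal_orthogonal, finrank_span_singleton hv, pow_one] at h1
  exact h1

private theorem refl_fix {n : ℕ} {v x : E n} (h : (inner ℝ v x : ℝ) = 0) :
    ((ℝ ∙ v)ᗮ).reflection x = x := by
  refine Submodule.reflection_mem_subspace_eq_self ?_
  rw [Submodule.mem_orthogonal_singleton_iff_inner_right]
  exact h

/-- L -/
theorem hL : StL := by
  intro n e v a b hn hev hab
  obtain ⟨he, hv, hevo⟩ := hev
  obtain ⟨ha, hb, habo⟩ := hab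
  simp only at he hv hevo ha hb habo
  obtain ⟨θ₁, hθ₁, hθe⟩ := exists_rot (by omega : 2 ≤ n) he ha
  by_cases hvb : θ₁ v = b
  · exact ⟨θ₁, hθ₁, hθe, hvb⟩
  · have hsub : θ₁ v - b ≠ 0 := sub_ne_zero.2 hvb
    obtain ⟨c, hc0, hca, hcb⟩ := exists_orth hn a b
    have hav : (inner ℝ a (θ₁ v) : ℝ) = 0 := by
      rw [← hθe, LinearIsometryEquiv.inner_map_map]
      exact hevo
    refine ⟨(θ₁.trans ((ℝ ∙ (θ₁ v - b))ᗮ).reflection).trans ((ℝ ∙ c)ᗮ).reflection, ?_, ?_, ?_⟩
    · unfold IsRot at hθ₁ ⊢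
      have e1 : (((θ₁.trans ((ℝ ∙ (θ₁ v - b))ᗮ).reflection).trans
          ((ℝ ∙ c)ᗮ).reflection).toLinearEquiv.toLinearMap : E n →ₗ[ℝ] E n)
          = ((((ℝ ∙ c)ᗮ).reflection).toLinearEquiv.toLinearMap : E n →ₗ[ℝ] E n) ∘ₗ
            (((((ℝ ∙ (θ₁ v - b))ᗮ).reflection).toLinearEquiv.toLinearMap : E n →ₗ[ℝ] E n) ∘ₗ
            (θ₁.toLinearEquiv.toLinearMap : E n →ₗ[ℝ] E n)) := rfl
      rw [e1, LinearMap.det_comp, LinearMap.det_comp, det_refl hsub, det_refl hc0, hθ₁]
      norm_num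
    · rw [LinearIsometryEquiv.trans_apply, LinearIsometryEquiv.trans_apply, hθe]
      have h1 : ((ℝ ∙ (θ₁ v - b))ᗮ).reflection a = a := by
        apply refl_fix
        rw [inner_sub_left, real_inner_comm, hav, real_inner_comm, habo, sub_zero]
      rw [h1]
      exact refl_fix hca
    · rw [LinearIsometryEquiv.trans_apply, LinearIsometryEquiv.trans_apply]
      have h2 : ((ℝ ∙ (θ₁ v - b))ᗮ).reflection (θ₁ v) = b :=
        Submodule.reflection_sub (by rw [LinearIsometryEquiv.norm_map, hv, hb])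
      rw [h2]
      exact refl_fix hcb

end Pool.Agent.Helper60.PM
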